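import Pool.Agent.N753.DR.Stm7

/-!
# PC/TRIV: the trivial bound for the proximity function (helper490)
-/

set_option autoImplicit false

namespace Pool.Agent.N490.PC.Triv

open NumberField IsDedekindDomain Module Polynomial Pool.Agent.N753.DR

section

variable {M : Type} [Field M] [NumberField M]

theorem log_le {m : ℕ} (q : Fin m → ℕ) (a : Fin m → ℝ) {b : ℝ} (hb : 0 < b) :
    Real.log ((∏ i, max (a i) 1 ^ q i) / b) ≤ ∑ i, (q i : ℝ) * Real.posLog (a i) +
      Real.posLog b⁻¹ := by
  have h1 : ∀ i, (0 : ℝ) < max (a i) 1 := fun i => lt_max_of_lt_right one_pos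
  have h0 : (0 : ℝ) < ∏ i, max (a i) 1 ^ q i := Finset.prod_pos fun i _ => pow_pos (h1 i) _
  rw [Real.log_div h0.ne' hb.ne', Real.log_prod fun i _ => (pow_pos (h1 i) _).ne']
  have h2 : ∀ i, Real.log (max (a i) 1) ≤ Real.posLog (a i) := by
    intro i
    rcases le_total (a i) 1 with h | h
    · rw [max_eq_right h, Real.log_one]; exact Real.posLog_nonneg
    · rw [max_eq_left h]; exact le_max_right _ _
  have h3 : -Real.log b ≤ Real.posLog b⁻¹ := by
    rw [← Real.log_inv]; exact le_max_right _ _
  have h4 : ∑ i, Real.log (max (a i) 1 ^ q i) ≤ ∑ i, (q i : ℝ) * Real.posLog (a i) := by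
    refine Finset.sum_le_sum fun i _ => ?_
    rw [Real.log_pow]
    exact mul_le_mul_of_nonneg_left (h2 i) (Nat.cast_nonneg _)
  linarith

theorem fin_supp (z : M) : (fun v : FinitePlace M => Real.posLog (v z)).HasFiniteSupport := by
  rcases eq_or_ne z 0 with rfl | hz
  · have : (fun v : FinitePlace M => Real.posLog (v 0)) = 0 := by
      funext v; simp
    rw [this]; exact (by simp [Function.HasFiniteSupport])
  · refine (FinitePlace.hasFiniteMulSupport hz).subset fun v hv => ?_
    rw [Function.mem_support] at hv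
    rw [Function.mem_mulSupport]
    intro h
    apply hv
    simp only [h, Real.posLog_one]

theorem fin_supp' (z : M) :
    (fun v : HeightOneSpectrum (𝓞 M) => Real.posLog (FinitePlace.mk v z)).HasFiniteSupport :=
  (fin_supp z).preimage (FinitePlace.equivHeightOneSpectrum.symm.injective.injOn)

theorem fs_eq (z : M) : (∑ᶠ w : FinitePlace M, Real.posLog (w z)) =
    ∑ᶠ v : HeightOneSpectrum (𝓞 M), Real.posLog (FinitePlace.mk v z) :=
  (finsum_comp_equiv FinitePlace.equivHeightOneSpectrum.symm).symm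

end

/-- PC/TRIV -/
theorem t : StmTriv := by
  intro M _ _ m Z q x g hg
  classical
  rw [← Height.logHeight₁_inv g, NumberField.logHeight₁_eq]
  simp_rw [NumberField.logHeight₁_eq, mul_add]
  rw [Finset.sum_add_distrib]
  unfold prZ
  have h1 : ∑ w : InfinitePlace M, (w.mult : ℝ) *
      Real.log ((∏ i, max (w (x i)) 1 ^ q i) / w g) ≤
      ∑ i, (q i : ℝ) * (∑ w : InfinitePlace M, w.mult * Real.posLog (w (x i))) +
        ∑ w : InfinitePlace M, w.mult * Real.posLog (w g⁻¹) := by
    have e : ∑ i, (q i : ℝ) * (∑ w : InfinitePlace M, w.mult * Real.posLog (w (x i))) =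
        ∑ w : InfinitePlace M, (w.mult : ℝ) * ∑ i, (q i : ℝ) * Real.posLog (w (x i)) := by
      simp_rw [Finset.mul_sum]
      rw [Finset.sum_comm]
      refine Finset.sum_congr rfl fun w _ => Finset.sum_congr rfl fun i _ => ?_
      ring
    rw [e, ← Finset.sum_add_distrib]
    refine Finset.sum_le_sum fun w _ => ?_
    have h2 := log_le q (fun i => w (x i)) (b := w g) (InfinitePlace.pos_iff.2 hg)
    have h3 := mul_le_mul_of_nonneg_left h2 (Nat.cast_nonneg w.mult : (0 : ℝ) ≤ w.mult)
    rw [map_inv₀, ← mul_add]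
    exact h3
  have h4 : (∑ᶠ v : HeightOneSpectrum (𝓞 M), if Z v then
      Real.log ((∏ i, max (FinitePlace.mk v (x i)) 1 ^ q i) / FinitePlace.mk v g) else 0) ≤
      ∑ i, (q i : ℝ) * (∑ᶠ w : FinitePlace M, Real.posLog (w (x i))) +
        ∑ᶠ w : FinitePlace M, Real.posLog (w g⁻¹) := by
    have s3 : ∀ i, (fun v : HeightOneSpectrum (𝓞 M) =>
        (q i : ℝ) * Real.posLog (FinitePlace.mk v (x i))).HasFiniteSupport := fun i =>
      (fin_supp' (x i)).subset fun v hv => by
        rw [Function.mem_support] at hv ⊢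
        exact fun h => hv (by rw [h, mul_zero])
    have s5 : (fun v : HeightOneSpectrum (𝓞 M) =>
        ∑ i, (q i : ℝ) * Real.posLog (FinitePlace.mk v (x i))).HasFiniteSupport := by
      refine (Set.finite_iUnion s3).subset fun v hv => ?_
      rw [Function.mem_support] at hv
      obtain ⟨i, -, hi⟩ := Finset.exists_ne_zero_of_sum_ne_zero hv
      exact Set.mem_iUnion.2 ⟨i, hi⟩
    have e1 : ∑ i, (q i : ℝ) * (∑ᶠ w : FinitePlace M, Real.posLog (w (x i))) =
        ∑ᶠ v : HeightOneSpectrum (𝓞 M), ∑ i, (q i : ℝ) * Real.posLog (FinitePlace.mk v (x i)) := by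
      rw [finsum_sum_comm _ _ fun i _ => s3 i]
      refine Finset.sum_congr rfl fun i _ => ?_
      rw [fs_eq, ← smul_eq_mul, smul_finsum' _ (fin_supp' (x i))]
      rfl
    rw [e1, fs_eq, ← finsum_add_distrib s5 (fin_supp' g⁻¹)]
    have s4 : (fun v : HeightOneSpectrum (𝓞 M) =>
        (∑ i, (q i : ℝ) * Real.posLog (FinitePlace.mk v (x i))) +
          Real.posLog (FinitePlace.mk v g⁻¹)).HasFiniteSupport :=
      (s5.union (fin_supp' g⁻¹)).subset (Function.support_add _ _)
    have hnn : ∀ v : HeightOneSpectrum (𝓞 M), (0 : ℝ) ≤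
        (∑ i, (q i : ℝ) * Real.posLog (FinitePlace.mk v (x i))) +
          Real.posLog (FinitePlace.mk v g⁻¹) := fun v =>
      add_nonneg (Finset.sum_nonneg fun i _ => mul_nonneg (Nat.cast_nonneg _) Real.posLog_nonneg)
        Real.posLog_nonneg
    have hle : ∀ v : HeightOneSpectrum (𝓞 M), (if Z v then
      Real.log ((∏ i, max (FinitePlace.mk v (x i)) 1 ^ q i) / FinitePlace.mk v g) else 0) ≤
        (∑ i, (q i : ℝ) * Real.posLog (FinitePlace.mk v (x i))) +
          Real.posLog (FinitePlace.mk v g⁻¹) := by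
      intro v
      have h5 := log_le q (fun i => FinitePlace.mk v (x i)) (b := FinitePlace.mk v g)
        (FinitePlace.pos_iff.2 hg)
      split_ifs
      · rw [map_inv₀]
        exact h5
      · exact hnn v
    by_cases hs : (Function.support fun v : HeightOneSpectrum (𝓞 M) =>
        if Z v then
      Real.log ((∏ i, max (FinitePlace.mk v (x i)) 1 ^ q i) / FinitePlace.mk v g) else 0).Finite
    · exact finsum_le_finsum' hs s4 hle
    · rw [finsum_of_infinite_support hs]
      exact finsum_nonneg hnn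
  linarith

end Pool.Agent.N490.PC.Triv
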